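import Pool.Agent.BSD.Kuhn

/-!
# The total degree of a map to the simplex
-/

namespace BSD

open Finset Equiv

/-- the determinant of a family of vectors -/
noncomputable def dt {d : ℕ} (y : Fin (d + 1) → (Fin (d + 1) → ℂ)) : ℂ :=
  Matrix.det (Matrix.of y)

lemma dt_cob {d : ℕ} (w : Fin (d + 1) → ℂ) (y : Fin (d + 2) → (Fin (d + 1) → ℂ))
    (hy : ∀ i, ∑ j, y i j * w j = 1) : cob dt y = 0 := by
  set A : Matrix (Fin (d + 2)) (Fin (d + 2)) ℂ := Matrix.of (fun i => Fin.cons 1 (y i)) with hA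
  have h1 : A.det = 0 := by
    rw [← Matrix.exists_mulVec_eq_zero_iff]
    refine ⟨Fin.cons (-1) w, ?_, ?_⟩
    · intro h
      have := congrFun h 0
      simp at this
    · funext i
      rw [Matrix.mulVec, dotProduct, Fin.sum_univ_succ]
      simp [hA, hy i]
  rw [Matrix.det_succ_column_zero] at h1
  rw [cob, ← h1]
  refine sum_congr rfl (fun i _ => ?_)
  have h2 : A i 0 = 1 := by simp [hA]
  rw [h2, mul_one]
  rfl

lemma dt_zero_of_col {d : ℕ} {y : Fin (d + 1) → (Fin (d + 1) → ℂ)} (j : Fin (d + 1))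
    (h : ∀ k, y k j = 0) : dt y = 0 :=
  Matrix.det_eq_zero_of_column_eq_zero j h

section Support

variable {d : ℕ}

/-- the linear functions `0, x₁, …, x_d` -/
def lam (x : Fin d → ℤ) : Fin (d + 1) → ℤ := Fin.cons 0 x

/-- the support condition for barycentric coordinates -/
def Sup (R ε : ℝ) (x : Fin d → ℤ) (t : Fin (d + 1) → ℂ) : Prop :=
  ∀ j, t j ≠ 0 → ∀ i, ((lam x i : ℤ) : ℝ) ≤ lam x j + R + ε * ‖x‖

lemma finite_norm_le (C : ℝ) : {x : Fin d → ℤ | ‖x‖ ≤ C}.Finite := by
  obtain ⟨N, hN⟩ := exists_nat_ge C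
  refine (Set.finite_Icc (fun _ : Fin d => -(N : ℤ)) (fun _ => (N : ℤ))).subset (fun x hx => ?_)
  have h1 : ∀ i, |x i| ≤ (N : ℤ) := fun i => by
    have h2 : ‖x i‖ ≤ N := ((norm_le_pi_norm x i).trans hx).trans hN
    rw [Int.norm_eq_abs] at h2
    exact_mod_cast h2
  exact ⟨fun i => (abs_le.1 (h1 i)).1, fun i => (abs_le.1 (h1 i)).2⟩

lemma lam_close {x y : Fin d → ℤ} (h : ‖y - x‖ ≤ 1) (i : Fin (d + 1)) :
    |((lam y i : ℤ) : ℝ) - lam x i| ≤ 1 := by
  refine Fin.cases ?_ (fun j => ?_) i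
  · simp [lam]
  · have h2 : ‖(y - x) j‖ ≤ 1 := (norm_le_pi_norm _ j).trans h
    rw [Int.norm_eq_abs] at h2
    simp only [lam, Fin.cons_succ]
    rw [Pi.sub_apply] at h2
    exact_mod_cast h2

/-- determinants of vectors satisfying the support condition vanish far away -/
lemma finite_support_dt {R ε : ℝ} (hR : 0 ≤ R) (hε0 : 0 ≤ ε) (hε : ε < 1)
    (y : (Fin d → ℤ) → Fin (d + 1) → (Fin d → ℤ)) (hy : ∀ x k, ‖y x k - x‖ ≤ 1)
    (a : (Fin d → ℤ) → Fin (d + 1) → (Fin (d + 1) → ℂ)) (ha : ∀ x k, Sup R ε (y x k) (a x k)) :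
    (Function.support fun x => dt (a x)).Finite := by
  refine (finite_norm_le ((R + 2 + ε) / (1 - ε))).subset (fun x hx => ?_)
  rw [Function.mem_support] at hx
  have h1 : ∀ j, ∃ k, a x k j ≠ 0 := by
    intro j
    by_contra hcon
    push Not at hcon
    exact hx (dt_zero_of_col j hcon)
  have h2 : ∀ i j, ((lam x i : ℤ) : ℝ) ≤ lam x j + (R + 2 + ε) + ε * ‖x‖ := by
    intro i j
    obtain ⟨k, hk⟩ := h1 j
    have h3 := ha x k j hk i
    have h4 := abs_le.1 (lam_close (hy x k) i)
    have h5 := abs_le.1 (lam_close (hy x k) j)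
    have h6 : ‖y x k‖ ≤ ‖x‖ + 1 := by
      have := norm_add_le (y x k - x) x
      rw [sub_add_cancel] at this
      linarith [hy x k]
    nlinarith [mul_le_mul_of_nonneg_left h6 hε0]
  rw [Set.mem_setOf_eq, le_div_iff₀ (by linarith)]
  have h3 : ‖x‖ ≤ (R + 2 + ε) + ε * ‖x‖ := by
    rw [pi_norm_le_iff_of_nonneg (by positivity)]
    intro i
    rw [Int.norm_eq_abs, abs_le]
    have e1 := h2 i.succ 0
    have e2 := h2 0 i.succ
    simp only [lam, Fin.cons_succ, Fin.cons_zero, Int.cast_zero] at e1 e2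
    constructor <;> linarith
  linarith

lemma norm_pth_sub (x : Fin d → ℤ) (σ : Perm (Fin d)) (k : ℕ) : ‖pth x σ k - x‖ ≤ 1 := by
  rw [pi_norm_le_iff_of_nonneg zero_le_one]
  intro i
  simp only [pth, Pi.sub_apply, add_sub_cancel_left]
  split_ifs <;> simp

lemma norm_hz_sub (x : Fin d → ℤ) (τ : Perm (Fin (d + 1))) (k : ℕ) : ‖hz τ x k - x‖ ≤ 1 := by
  rw [pi_norm_le_iff_of_nonneg zero_le_one]
  intro i
  simp only [hz, Pi.sub_apply, add_sub_cancel_left]
  split_ifs <;> simp

lemma finite_support_KS {R ε : ℝ} (hR : 0 ≤ R) (hε0 : 0 ≤ ε) (hε : ε < 1)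
    (T : (Fin d → ℤ) → (Fin (d + 1) → ℂ)) (hT : ∀ x, Sup R ε x (T x)) :
    (Function.support (KS dt T)).Finite := by
  have h1 : ∀ σ : Perm (Fin d),
      (Function.support fun x => dt (fun k : Fin (d + 1) => T (pth x σ k))).Finite := fun σ =>
    finite_support_dt hR hε0 hε (fun x k => pth x σ k) (fun x k => norm_pth_sub x σ k)
      (fun x k => T (pth x σ k)) (fun x k => hT _)
  refine (Set.finite_iUnion h1).subset (fun x hx => ?_)
  rw [Function.mem_support, KS] at hx
  obtain ⟨σ, -, hσ⟩ := exists_ne_zero_of_sum_ne_zero hx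
  exact Set.mem_iUnion.2 ⟨σ, right_ne_zero_of_mul hσ⟩

lemma finite_support_mx {R ε : ℝ} (hR : 0 ≤ R) (hε0 : 0 ≤ ε) (hε : ε < 1)
    (T T' : (Fin d → ℤ) → (Fin (d + 1) → ℂ)) (hT : ∀ x, Sup R ε x (T x))
    (hT' : ∀ x, Sup R ε x (T' x)) (τ : Perm (Fin (d + 1))) :
    (Function.support fun x => dt (mx T T' τ x)).Finite := by
  refine finite_support_dt hR hε0 hε (fun x k => hz τ x k) (fun x k => norm_hz_sub x τ k)
      (fun x k => mx T T' τ x k) (fun x k => ?_)
  rw [mx]
  split_ifs
  · exact hT' _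
  · exact hT _

/-- the total degree does not depend on the map -/
theorem total_dt {R ε : ℝ} (hR : 0 ≤ R) (hε0 : 0 ≤ ε) (hε : ε < 1)
    (T T' : (Fin d → ℤ) → (Fin (d + 1) → ℂ)) (hT : ∀ x, Sup R ε x (T x))
    (hT' : ∀ x, Sup R ε x (T' x)) (h1 : ∀ x, ∑ j, T x j = 1) (h1' : ∀ x, ∑ j, T' x j = 1) :
    ∑' x, KS dt T' x = ∑' x, KS dt T x := by
  refine total_eq dt {t | ∑ j, t j = 1} (fun y hy => ?_) T T' h1 h1'
    (finite_support_KS hR hε0 hε T hT) (finite_support_KS hR hε0 hε T' hT')
    (fun p σ => finite_support_mx hR hε0 hε T T' hT hT' _)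
  exact dt_cob (fun _ => 1) y (fun i => by simpa using hy i)

end Support

section Hard

variable {d : ℕ}

lemma am_nonempty (x : Fin d → ℤ) :
    (univ.filter fun j : Fin (d + 1) => ∀ i, lam x i ≤ lam x j).Nonempty := by
  obtain ⟨j, -, hj⟩ := exists_max_image univ (lam x) univ_nonempty
  exact ⟨j, mem_filter.2 ⟨mem_univ _, fun i => hj i (mem_univ i)⟩⟩

/-- the smallest index where the maximum is attained -/
noncomputable def am (x : Fin d → ℤ) : Fin (d + 1) :=
  (univ.filter fun j : Fin (d + 1) => ∀ i, lam x i ≤ lam x j).min' (am_nonempty x)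

lemma am_le (x : Fin d → ℤ) (i : Fin (d + 1)) : lam x i ≤ lam x (am x) :=
  (mem_filter.1 ((univ.filter fun j : Fin (d + 1) => ∀ i, lam x i ≤ lam x j).min'_mem
    (am_nonempty x))).2 i

lemma am_lt (x : Fin d → ℤ) {i : Fin (d + 1)} (h : i < am x) : lam x i < lam x (am x) := by
  rcases lt_or_eq_of_le (am_le x i) with h1 | h1
  · exact h1
  · exfalso
    refine absurd ((univ.filter fun j : Fin (d + 1) => ∀ i, lam x i ≤ lam x j).min'_le i
      (mem_filter.2 ⟨mem_univ _, fun l => ?_⟩)) (not_le.2 h)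
    rw [h1]
    exact am_le x l

lemma am_eq {x : Fin d → ℤ} {j : Fin (d + 1)} (h1 : ∀ i, lam x i ≤ lam x j)
    (h2 : ∀ i < j, lam x i < lam x j) : am x = j := by
  rcases lt_trichotomy (am x) j with h | h | h
  · exact absurd (am_le x j) (not_le.2 (h2 _ h))
  · exact h
  · exact absurd (h1 (am x)) (not_le.2 (am_lt x h))

/-- the hard colouring -/
noncomputable def hrd (x : Fin d → ℤ) : Fin (d + 1) → ℂ := Pi.single (am x) 1

lemma Sup_hrd {R ε : ℝ} (hR : 0 ≤ R) (hε : 0 ≤ ε) (x : Fin d → ℤ) : Sup R ε x (hrd x) := by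
  intro j hj i
  have h1 : j = am x := by
    by_contra h
    exact hj (Pi.single_eq_of_ne h _)
  subst h1
  have h2 : ((lam x i : ℤ) : ℝ) ≤ lam x (am x) := by exact_mod_cast am_le x i
  have h3 : 0 ≤ ε * ‖x‖ := by positivity
  linarith

lemma dt_hrd_zero {a : Fin (d + 1) → Fin (d + 1)} (h : ¬ Function.Injective a) :
    dt (fun k => Pi.single (M := fun _ => ℂ) (a k) 1) = 0 := by
  rw [Function.Injective] at h
  push Not at h
  obtain ⟨i, j, h1, h2⟩ := h
  refine Matrix.det_zero_of_row_eq h2 ?_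
  change Pi.single (M := fun _ => ℂ) (a i) 1 = Pi.single (M := fun _ => ℂ) (a j) 1
  rw [h1]

lemma dt_hrd_sq {a : Fin (d + 1) → Fin (d + 1)} (h : Function.Injective a) :
    dt (fun k => Pi.single (M := fun _ => ℂ) (a k) 1) ^ 2 = 1 := by
  set π : Perm (Fin (d + 1)) := Equiv.ofBijective a (Finite.injective_iff_bijective.1 h) with hπ
  have h1 : (Matrix.of (fun k => Pi.single (M := fun _ => ℂ) (a k) 1))
      = (1 : Matrix (Fin (d + 1)) (Fin (d + 1)) ℂ).submatrix π id := by
    ext i j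
    rw [Matrix.submatrix_apply, Matrix.of_apply, Matrix.one_apply, Pi.single_apply]
    simp [hπ, eq_comm]
  rw [dt, h1, Matrix.det_permute, Matrix.det_one, mul_one]
  rcases Int.units_eq_one_or (Perm.sign π) with h2 | h2 <;> simp [h2]

/-- the only rainbow simplex -/
lemma rainbow {x : Fin d → ℤ} {σ : Perm (Fin d)}
    (h : Function.Injective fun k : Fin (d + 1) => am (pth x σ k)) :
    x = 0 ∧ σ = Fin.revPerm := by
  have hsurj : Function.Surjective fun k : Fin (d + 1) => am (pth x σ k) :=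
    Finite.injective_iff_surjective.1 h
  have hx0 : x = 0 := by
    funext i
    apply le_antisymm
    · obtain ⟨k, hk⟩ := hsurj 0
      have h1 := am_le (pth x σ k) i.succ
      simp only at hk
      rw [hk] at h1
      simp only [lam, Fin.cons_succ, Fin.cons_zero, pth] at h1
      rw [Pi.zero_apply]
      split_ifs at h1 <;> omega
    · obtain ⟨k, hk⟩ := hsurj i.succ
      simp only at hk
      have h1 := am_lt (pth x σ k) (i := 0) (by rw [hk]; exact Fin.succ_pos i)
      rw [hk] at h1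
      simp only [lam, Fin.cons_succ, Fin.cons_zero, pth] at h1
      rw [Pi.zero_apply]
      split_ifs at h1 <;> omega
  subst hx0
  refine ⟨rfl, ?_⟩
  have hlam : ∀ (k : ℕ) (i : Fin d), lam (pth (0 : Fin d → ℤ) σ k) i.succ
      = if (σ.symm i : ℕ) < k then 1 else 0 := by
    intro k i
    simp [lam, pth]
  have hlam0 : ∀ (k : ℕ), lam (pth (0 : Fin d → ℤ) σ k) 0 = 0 := by
    intro k
    simp [lam]
  -- the colour at step `k+1` is at most `σ k`, and it is the new direction
  have hcol : ∀ k : Fin d, am (pth (0 : Fin d → ℤ) σ ((k : ℕ) + 1)) = (σ k).succ := by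
    intro k
    set y := pth (0 : Fin d → ℤ) σ ((k : ℕ) + 1) with hy
    have hne : am y ≠ am (pth (0 : Fin d → ℤ) σ k) := by
      intro h1
      have := @h k.succ k.castSucc (by simpa using h1)
      simp [Fin.ext_iff] at this
    have hy1 : lam y (σ k).succ = 1 := by
      rw [hlam, if_pos]
      simp
    have hle1 : ∀ i, lam y i ≤ 1 := by
      intro i
      refine Fin.cases ?_ (fun j => ?_) i
      · rw [hlam0]; norm_num
      · rw [hlam]; split_ifs <;> norm_num
    have hamy : lam y (am y) = 1 := le_antisymm (hle1 _) (hy1 ▸ am_le y _)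
    have hnz : am y ≠ 0 := by
      intro h1
      rw [h1, hlam0] at hamy
      norm_num at hamy
    obtain ⟨i, hi⟩ := Fin.exists_succ_eq.2 hnz
    rw [← hi]
    congr 1
    rw [← hi, hlam] at hamy
    have hik : (σ.symm i : ℕ) < k + 1 := by
      by_contra h1
      rw [if_neg h1] at hamy
      norm_num at hamy
    by_contra hne2
    have hik2 : (σ.symm i : ℕ) < k := by
      rcases Nat.lt_succ_iff_lt_or_eq.1 hik with h1 | h1
      · exact h1
      · exfalso
        apply hne2
        have : σ.symm i = k := Fin.ext h1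
        rw [← this, apply_symm_apply]
    apply hne
    rw [← hi]
    refine (am_eq (fun j => ?_) (fun j hj => ?_)).symm
    · rw [hlam, if_pos hik2]
      refine Fin.cases ?_ (fun l => ?_) j
      · rw [hlam0]; norm_num
      · rw [hlam]; split_ifs <;> norm_num
    · rw [hlam, if_pos hik2]
      have h2 := am_lt y (i := j) (by rw [← hi]; exact hj)
      rw [← hi, hlam, if_pos hik] at h2
      refine lt_of_le_of_lt ?_ h2
      revert h2
      refine Fin.cases ?_ (fun l => ?_) j
      · intro _; rw [hlam0, hlam0]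
      · intro _
        rw [hlam, hy, hlam]
        split_ifs <;> first | omega | norm_num
  have hanti : StrictAnti σ := by
    intro k l hkl
    have h1 := hcol l
    have h2 : lam (pth (0 : Fin d → ℤ) σ ((l : ℕ) + 1)) (σ k).succ = 1 := by
      rw [hlam, if_pos]
      rw [symm_apply_apply]
      exact Nat.lt_succ_of_lt hkl
    have h3 : lam (pth (0 : Fin d → ℤ) σ ((l : ℕ) + 1)) (σ l).succ = 1 := by
      rw [hlam, if_pos]
      rw [symm_apply_apply]
      exact Nat.lt_succ_self _
    have h4 : ¬ (σ k).succ < (σ l).succ := by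
      intro h5
      rw [← h1] at h5
      have h6 := am_lt _ h5
      rw [h1, h2, h3] at h6
      exact lt_irrefl _ h6
    rw [Fin.succ_lt_succ_iff, not_lt] at h4
    exact lt_of_le_of_ne h4 (fun h5 => hkl.ne' (σ.injective h5))
  have hmono : StrictMono (σ ∘ Fin.rev) := fun a b hab => hanti (Fin.rev_lt_rev.2 hab)
  have h5 : σ ∘ Fin.rev = id := by
    refine (hmono.range_inj strictMono_id).1 ?_
    rw [Set.range_id]
    exact (σ.surjective.comp Fin.rev_surjective).range_eq
  ext i
  have h6 := congrFun h5 (Fin.rev i)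
  simp only [Function.comp_apply, Fin.rev_rev, id] at h6
  rw [h6]
  rfl

lemma rev_inj : Function.Injective fun k : Fin (d + 1) =>
    am (pth (0 : Fin d → ℤ) (Fin.revPerm : Perm (Fin d)) k) := by
  have hlam : ∀ (k : ℕ) (i : Fin d), lam (pth (0 : Fin d → ℤ) (Fin.revPerm : Perm (Fin d)) k) i.succ
      = if (i.rev : ℕ) < k then 1 else 0 := by
    intro k i
    simp [lam, pth]
  have hlam0 : ∀ (k : ℕ), lam (pth (0 : Fin d → ℤ) (Fin.revPerm : Perm (Fin d)) k) 0 = 0 := by
    intro k
    simp [lam]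
  have h0 : am (pth (0 : Fin d → ℤ) (Fin.revPerm : Perm (Fin d)) 0) = 0 := by
    refine am_eq (fun i => ?_) (fun i hi => ?_)
    · refine Fin.cases ?_ (fun j => ?_) i
      · exact le_rfl
      · rw [hlam0, hlam]; simp
    · exact absurd hi (Fin.not_lt_zero i)
  have hk : ∀ k : Fin d, am (pth (0 : Fin d → ℤ) (Fin.revPerm : Perm (Fin d)) ((k : ℕ) + 1))
      = k.rev.succ := by
    intro k
    refine am_eq (fun i => ?_) (fun i hi => ?_)
    · rw [hlam, if_pos (by rw [Fin.rev_rev]; omega)]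
      refine Fin.cases ?_ (fun j => ?_) i
      · rw [hlam0]; norm_num
      · rw [hlam]; split_ifs <;> norm_num
    · rw [hlam, if_pos (by rw [Fin.rev_rev]; omega)]
      revert hi
      refine Fin.cases ?_ (fun j => ?_) i
      · intro _; rw [hlam0]; norm_num
      · intro hi
        rw [hlam, if_neg]
        · norm_num
        · rw [Fin.succ_lt_succ_iff, Fin.lt_def] at hi
          have e1 := Fin.val_rev k
          have e2 := Fin.val_rev j
          have e3 := k.2
          have e4 := j.2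
          omega
  intro k l hkl
  simp only at hkl
  revert hkl
  refine Fin.cases ?_ (fun i => ?_) k <;> refine Fin.cases ?_ (fun j => ?_) l
  · intro _; rfl
  · intro h
    simp only [Fin.val_zero, Fin.val_succ] at h
    rw [h0, hk] at h
    exact absurd h.symm (Fin.succ_ne_zero _)
  · intro h
    simp only [Fin.val_zero, Fin.val_succ] at h
    rw [h0, hk] at h
    exact absurd h (Fin.succ_ne_zero _)
  · intro h
    simp only [Fin.val_succ] at h
    rw [hk, hk, Fin.succ_inj, Fin.rev_inj] at h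
    rw [h]

/-- the total degree of the hard colouring -/
theorem total_hrd_sq : (∑' x, KS dt (hrd (d := d)) x) ^ 2 = 1 := by
  have h1 : ∀ x : Fin d → ℤ, x ≠ 0 → KS dt (hrd (d := d)) x = 0 := by
    intro x hx
    rw [KS]
    refine sum_eq_zero (fun σ _ => ?_)
    have : ¬ Function.Injective fun k : Fin (d + 1) => am (pth x σ k) := fun h =>
      hx (rainbow h).1
    have h2 := dt_hrd_zero this
    change _ * dt (fun k : Fin (d + 1) => Pi.single (M := fun _ => ℂ) (am (pth x σ k)) 1) = 0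
    rw [h2, mul_zero]
  rw [tsum_eq_single 0 h1, KS, sum_eq_single (Fin.revPerm : Perm (Fin d))]
  · rw [mul_pow]
    have h2 := dt_hrd_sq (d := d) rev_inj
    change _ * dt (fun k : Fin (d + 1) => Pi.single (M := fun _ => ℂ)
      (am (pth 0 (Fin.revPerm : Perm (Fin d)) k)) 1) ^ 2 = 1
    rw [h2, mul_one]
    rcases Int.units_eq_one_or (Perm.sign (Fin.revPerm : Perm (Fin d))) with h2 | h2 <;> simp [h2]
  · intro σ _ hσ
    have : ¬ Function.Injective fun k : Fin (d + 1) => am (pth (0 : Fin d → ℤ) σ k) := fun h =>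
      hσ (rainbow h).2
    have h2 := dt_hrd_zero this
    change _ * dt (fun k : Fin (d + 1) => Pi.single (M := fun _ => ℂ) (am (pth 0 σ k)) 1) = 0
    rw [h2, mul_zero]
  · intro h
    exact absurd (mem_univ _) h

/-- The total degree of every map satisfying the support condition is the same sign. -/
theorem degree {R ε : ℝ} (hR : 0 ≤ R) (hε0 : 0 ≤ ε) (hε : ε < 1)
    (T : (Fin d → ℤ) → (Fin (d + 1) → ℂ)) (hT : ∀ x, Sup R ε x (T x))
    (h1 : ∀ x, ∑ j, T x j = 1) :
    ∑' x, KS dt T x = ∑' x, KS dt (hrd (d := d)) x :=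
  total_dt hR hε0 hε hrd T (fun x => Sup_hrd hR hε0 x) hT (fun x => by simp [hrd]) h1

end Hard

end BSD
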