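import Mathlib

/-!
# Kuhn triangulation sums and the prism identity
-/

namespace BSD

open Finset Equiv

section Path

variable {m : ℕ}

/-- the `k`-th vertex of the monotone path from `x` in the order `τ` -/
def pth (x : Fin m → ℤ) (τ : Perm (Fin m)) (k : ℕ) : Fin m → ℤ :=
  fun i => x i + if (τ.symm i : ℕ) < k then 1 else 0

/-- the `k`-th vertex of the opposite face: the first direction is left out -/
def fce (x : Fin m → ℤ) (τ : Perm (Fin m)) (k : ℕ) : Fin m → ℤ :=
  fun i => x i + if 1 ≤ (τ.symm i : ℕ) ∧ (τ.symm i : ℕ) ≤ k then 1 else 0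

/-- the coboundary -/
def cob {Y : Type*} {m : ℕ} (c : (Fin m → Y) → ℂ) (y : Fin (m + 1) → Y) : ℂ :=
  ∑ i : Fin (m + 1), (-1) ^ (i : ℕ) * c (y ∘ i.succAbove)

lemma interior_zero {m : ℕ} (c : (Fin m → (Fin m → ℤ)) → ℂ) (x : Fin m → ℤ) (i : Fin (m + 1))
    (h0 : (i : ℕ) ≠ 0) (hm : (i : ℕ) ≠ m) :
    ∑ τ : Perm (Fin m), ((Perm.sign τ : ℤ) : ℂ) *
      c ((fun k : Fin (m + 1) => pth x τ k) ∘ i.succAbove) = 0 := by
  have hi := i.2
  set a : Fin m := ⟨i - 1, by omega⟩ with ha
  set b : Fin m := ⟨i, by omega⟩ with hb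
  have hab : a ≠ b := by
    rw [ha, hb, Ne, Fin.mk.injEq]
    omega
  set S := ∑ τ : Perm (Fin m), ((Perm.sign τ : ℤ) : ℂ) *
      c ((fun k : Fin (m + 1) => pth x τ k) ∘ i.succAbove) with hS
  have key : S = -S := by
    conv_lhs => rw [hS, ← Equiv.sum_comp (Equiv.mulRight (swap a b))]
    rw [hS, ← sum_neg_distrib]
    refine sum_congr rfl (fun τ _ => ?_)
    rw [coe_mulRight, Perm.sign_mul, Perm.sign_swap hab]
    have : (fun k : Fin (m + 1) => pth x (τ * swap a b) k) ∘ i.succAbove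
        = (fun k : Fin (m + 1) => pth x τ k) ∘ i.succAbove := by
      funext k
      simp only [Function.comp_apply]
      set l := i.succAbove k with hl
      have hli : l ≠ i := Fin.succAbove_ne i k
      have hli' : (l : ℕ) ≠ i := fun h => hli (Fin.ext h)
      funext j
      rw [pth, pth]
      congr 1
      have e1 : (τ * swap a b).symm j = swap a b (τ.symm j) := by
        rw [Perm.mul_def, symm_trans_apply, symm_swap]
      rw [e1]
      have e2 : ((swap a b (τ.symm j) : Fin m) : ℕ) < l ↔ ((τ.symm j : Fin m) : ℕ) < l := by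
        by_cases h1 : τ.symm j = a
        · rw [h1, swap_apply_left, ha, hb]
          simp only
          omega
        · by_cases h2 : τ.symm j = b
          · rw [h2, swap_apply_right, ha, hb]
            simp only
            omega
          · rw [swap_apply_of_ne_of_ne h1 h2]
      simp only [e2]
    rw [this]
    push_cast
    ring
  have : (2 : ℂ) * S = 0 := by linear_combination key
  exact (mul_eq_zero.1 this).resolve_left two_ne_zero

/-- The boundary formula for Kuhn cubes. -/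
theorem kuhn_boundary {m : ℕ} (c : (Fin (m + 1) → (Fin (m + 1) → ℤ)) → ℂ)
    (x : Fin (m + 1) → ℤ)
    (hc : ∀ τ : Perm (Fin (m + 1)), cob c (fun k : Fin (m + 2) => pth x τ k) = 0) :
    ∑ τ : Perm (Fin (m + 1)), ((Perm.sign τ : ℤ) : ℂ) *
      (c (fun k => fce (x + Pi.single (τ 0) 1) τ k) - c (fun k => fce x τ k)) = 0 := by
  have h1 : ∑ τ : Perm (Fin (m + 1)), ((Perm.sign τ : ℤ) : ℂ) *
      cob c (fun k : Fin (m + 2) => pth x τ k) = 0 :=
    sum_eq_zero (fun τ _ => by rw [hc τ, mul_zero])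
  simp only [cob, mul_sum] at h1
  rw [sum_comm] at h1
  have h2 : ∀ i : Fin (m + 2), ∑ τ : Perm (Fin (m + 1)), ((Perm.sign τ : ℤ) : ℂ) *
      ((-1) ^ (i : ℕ) * c ((fun k : Fin (m + 2) => pth x τ k) ∘ i.succAbove))
      = (-1) ^ (i : ℕ) * ∑ τ : Perm (Fin (m + 1)), ((Perm.sign τ : ℤ) : ℂ) *
        c ((fun k : Fin (m + 2) => pth x τ k) ∘ i.succAbove) := fun i => by
    rw [mul_sum]
    exact sum_congr rfl (fun τ _ => by ring)
  simp only [h2] at h1
  rw [Fin.sum_univ_succ, Fin.sum_univ_castSucc] at h1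
  have h3 : ∑ i : Fin m, (-1) ^ ((i.castSucc.succ : Fin (m + 2)) : ℕ) *
      ∑ τ : Perm (Fin (m + 1)), ((Perm.sign τ : ℤ) : ℂ) *
        c ((fun k : Fin (m + 2) => pth x τ k) ∘ (i.castSucc.succ).succAbove) = (0 : ℂ) := by
    refine sum_eq_zero (fun i _ => ?_)
    rw [interior_zero c x _ (by simp) (by simp; omega), mul_zero]
  rw [h3, zero_add] at h1
  -- the first face
  have h4 : ∀ τ : Perm (Fin (m + 1)), c ((fun k : Fin (m + 2) => pth x τ k) ∘
      (0 : Fin (m + 2)).succAbove) = c (fun k => fce (x + Pi.single (τ 0) 1) τ k) := by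
    intro τ
    congr 1
    funext k j
    simp only [Function.comp_apply, Fin.zero_succAbove, Fin.val_succ, pth, fce, Pi.add_apply]
    by_cases hj : j = τ 0
    · subst hj
      simp
    · have h5 : Pi.single (M := fun _ => ℤ) (τ 0) (1 : ℤ) j = 0 := Pi.single_eq_of_ne hj _
      rw [h5, add_zero]
      have h6 : τ.symm j ≠ 0 := fun h => hj (by rw [← h, apply_symm_apply])
      have h7 : 1 ≤ ((τ.symm j : Fin (m + 1)) : ℕ) := by
        rw [Nat.one_le_iff_ne_zero]
        exact fun h => h6 (Fin.ext h)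
      simp only [h7, true_and, Nat.lt_succ_iff]
  -- the last face
  have h5 : ∑ τ : Perm (Fin (m + 1)), ((Perm.sign τ : ℤ) : ℂ) *
      c ((fun k : Fin (m + 2) => pth x τ k) ∘ (Fin.last m).succ.succAbove)
      = (-1) ^ m * ∑ τ : Perm (Fin (m + 1)), ((Perm.sign τ : ℤ) : ℂ) *
        c (fun k => fce x τ k) := by
    rw [← Equiv.sum_comp (Equiv.mulRight (finRotate (m + 1))), mul_sum]
    refine sum_congr rfl (fun τ _ => ?_)
    rw [coe_mulRight, Perm.sign_mul, sign_finRotate]
    have : (fun k : Fin (m + 2) => pth x (τ * finRotate (m + 1)) k) ∘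
        (Fin.last m).succ.succAbove = fun k : Fin (m + 1) => fce x τ k := by
      funext k j
      simp only [Function.comp_apply, Fin.succ_last, Fin.succAbove_last, Fin.val_castSucc, pth, fce]
      congr 1
      have e1 : (τ * finRotate (m + 1)).symm j = (finRotate (m + 1)).symm (τ.symm j) := rfl
      rw [e1]
      have hk := k.2
      by_cases h6 : τ.symm j = 0
      · have e2 : (finRotate (m + 1)).symm (τ.symm j) = Fin.last m := by
          rw [h6, symm_apply_eq, finRotate_last]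
        rw [e2, h6]
        simp
        omega
      · obtain ⟨l, hl⟩ := Fin.exists_succ_eq.2 h6
        have e2 : (finRotate (m + 1)).symm (τ.symm j) = l.castSucc := by
          rw [symm_apply_eq, ← hl, finRotate_succ_apply]
          exact (Fin.coeSucc_eq_succ).symm
        rw [e2, ← hl]
        simp only [Fin.val_castSucc, Fin.val_succ]
        congr 1
        rw [eq_iff_iff]
        omega
    rw [this]
    push_cast
    ring
  rw [h5] at h1
  simp only [h4] at h1
  simp only [Fin.val_zero, pow_zero, one_mul, Fin.succ_last, Fin.val_last] at h1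
  simp only [mul_sub, sum_sub_distrib]
  rw [← mul_assoc, ← pow_add] at h1
  have : ((-1 : ℂ)) ^ (m + 1 + m) = -1 := by
    rw [Odd.neg_one_pow ⟨m, by ring⟩]
  rw [this] at h1
  linear_combination h1

end Path

section Prism

variable {d : ℕ} {Y : Type*}

/-- the signed sum over the simplices of a Kuhn cube -/
noncomputable def KS (c : (Fin (d + 1) → Y) → ℂ) (E : (Fin d → ℤ) → Y) (x : Fin d → ℤ) : ℂ :=
  ∑ σ : Perm (Fin d), ((Perm.sign σ : ℤ) : ℂ) * c (fun k => E (pth x σ k))

/-- the order of directions with the vertical one inserted -/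
def ins (p : Fin d) (σ : Perm (Fin d)) : Perm (Fin (d + 1)) := Perm.decomposeFin.symm (p.succ, σ)

/-- the horizontal position of a vertex of a side of the prism -/
def hz (τ : Perm (Fin (d + 1))) (x : Fin d → ℤ) (k : ℕ) : Fin d → ℤ :=
  fun i => x i + if 1 ≤ (τ.symm i.succ : ℕ) ∧ (τ.symm i.succ : ℕ) ≤ k then 1 else 0

/-- vertices of a simplex in a side of the prism -/
noncomputable def mx (E P : (Fin d → ℤ) → Y) (τ : Perm (Fin (d + 1))) (x : Fin d → ℤ)
    (k : Fin (d + 1)) : Y :=
  if (τ.symm 0 : ℕ) ≤ k then P (hz τ x k) else E (hz τ x k)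

/-- The prism identity. -/
theorem prism (c : (Fin (d + 1) → Y) → ℂ) (S : Set Y)
    (hc : ∀ y : Fin (d + 2) → Y, (∀ i, y i ∈ S) → cob c y = 0)
    (E P : (Fin d → ℤ) → Y) (hE : ∀ x, E x ∈ S) (hP : ∀ x, P x ∈ S) (x : Fin d → ℤ) :
    KS c P x - KS c E x = ∑ p : Fin d, ∑ σ : Perm (Fin d), ((Perm.sign σ : ℤ) : ℂ) *
      (c (mx E P (ins p σ) (x + Pi.single p 1)) - c (mx E P (ins p σ) x)) := by
  set Q : (Fin (d + 1) → ℤ) → Y := fun y =>
    if y 0 = 0 then E (fun i => y i.succ) else P (fun i => y i.succ) with hQ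
  have h1 := kuhn_boundary (fun y => c (Q ∘ y)) (Fin.cons 0 x) (fun τ => by
    have := hc (fun k => Q (pth (Fin.cons 0 x) τ k)) (fun k => by
      rw [hQ]
      simp only
      split_ifs
      · exact hE _
      · exact hP _)
    exact this)
  rw [← (Perm.decomposeFin (n := d)).symm.sum_comp, Fintype.sum_prod_type,
    Fin.sum_univ_succ] at h1
  have e1 : ∑ σ : Perm (Fin d), ((Perm.sign (Perm.decomposeFin.symm ((0 : Fin (d + 1)), σ)) : ℤ) : ℂ) *
      (c (Q ∘ fun k : Fin (d + 1) => fce ((Fin.cons 0 x : Fin (d + 1) → ℤ) + Pi.single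
        ((Perm.decomposeFin.symm ((0 : Fin (d + 1)), σ)) 0) 1)
        (Perm.decomposeFin.symm ((0 : Fin (d + 1)), σ)) k)
        - c (Q ∘ fun k : Fin (d + 1) => fce (Fin.cons 0 x)
          (Perm.decomposeFin.symm ((0 : Fin (d + 1)), σ)) k))
      = KS c P x - KS c E x := by
    rw [KS, KS, ← sum_sub_distrib]
    refine sum_congr rfl (fun σ _ => ?_)
    set τ := Perm.decomposeFin.symm ((0 : Fin (d + 1)), σ) with hτ
    have hτ0 : τ 0 = 0 := by rw [hτ, Perm.decomposeFin_symm_apply_zero]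
    have hτ0' : τ.symm 0 = 0 := by rw [symm_apply_eq, hτ0]
    have hτs : ∀ i : Fin d, τ.symm i.succ = (σ.symm i).succ := by
      intro i
      rw [symm_apply_eq, hτ, Perm.decomposeFin_symm_apply_succ]
      simp
    have hsgn : Perm.sign τ = Perm.sign σ := by
      rw [hτ, Perm.decomposeFin.symm_sign, if_pos rfl, one_mul]
    have hz1 : ∀ k : Fin (d + 1), (fun i : Fin d => fce ((Fin.cons 0 x : Fin (d + 1) → ℤ)
        + Pi.single (τ 0) 1) τ k i.succ) = pth x σ k := by
      intro k
      funext i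
      rw [fce, pth, hτ0, hτs, Pi.add_apply, Fin.cons_succ,
        Pi.single_eq_of_ne (Fin.succ_ne_zero i), add_zero, Fin.val_succ]
      congr 1
      have : (1 ≤ ((σ.symm i : Fin d) : ℕ) + 1 ∧ ((σ.symm i : Fin d) : ℕ) + 1 ≤ (k : ℕ))
          ↔ ((σ.symm i : Fin d) : ℕ) < k := by omega
      simp only [this]
    have hz2 : ∀ k : Fin (d + 1), (fun i : Fin d => fce (Fin.cons 0 x : Fin (d + 1) → ℤ) τ k i.succ)
        = pth x σ k := by
      intro k
      rw [← hz1]
      funext i
      rw [fce, fce, hτ0, Pi.add_apply, Pi.single_eq_of_ne (Fin.succ_ne_zero i), add_zero]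
    have e2 : (Q ∘ fun k : Fin (d + 1) => fce ((Fin.cons 0 x : Fin (d + 1) → ℤ)
        + Pi.single (τ 0) 1) τ k) = fun k : Fin (d + 1) => P (pth x σ k) := by
      funext k
      simp only [Function.comp_apply, hQ]
      rw [hz1, if_neg]
      rw [fce, hτ0, hτ0']
      simp
    have e3 : (Q ∘ fun k : Fin (d + 1) => fce (Fin.cons 0 x : Fin (d + 1) → ℤ) τ k)
        = fun k : Fin (d + 1) => E (pth x σ k) := by
      funext k
      simp only [Function.comp_apply, hQ]
      rw [hz2, if_pos]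
      rw [fce, hτ0']
      simp
    rw [e2, e3, hsgn, mul_sub]
  have e4 : ∀ p : Fin d, ∀ σ : Perm (Fin d),
      ((Perm.sign (Perm.decomposeFin.symm (p.succ, σ)) : ℤ) : ℂ) *
      (c (Q ∘ fun k : Fin (d + 1) => fce ((Fin.cons 0 x : Fin (d + 1) → ℤ) + Pi.single
        ((Perm.decomposeFin.symm (p.succ, σ)) 0) 1) (Perm.decomposeFin.symm (p.succ, σ)) k)
        - c (Q ∘ fun k : Fin (d + 1) => fce (Fin.cons 0 x)
          (Perm.decomposeFin.symm (p.succ, σ)) k))
      = - (((Perm.sign σ : ℤ) : ℂ) *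
      (c (mx E P (ins p σ) (x + Pi.single p 1)) - c (mx E P (ins p σ) x))) := by
    intro p σ
    change ((Perm.sign (ins p σ) : ℤ) : ℂ) *
      (c (Q ∘ fun k : Fin (d + 1) => fce ((Fin.cons 0 x : Fin (d + 1) → ℤ) + Pi.single
        ((ins p σ) 0) 1) (ins p σ) k)
        - c (Q ∘ fun k : Fin (d + 1) => fce (Fin.cons 0 x) (ins p σ) k)) = _
    set τ := ins p σ with hτ
    have hτ0 : τ 0 = p.succ := by rw [hτ, ins, Perm.decomposeFin_symm_apply_zero]
    have hτ0' : (τ.symm 0 : ℕ) ≠ 0 := by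
      intro h
      have h2 : τ.symm 0 = 0 := Fin.ext h
      rw [symm_apply_eq, hτ0] at h2
      exact Fin.succ_ne_zero p h2.symm
    have hsgn : Perm.sign τ = - Perm.sign σ := by
      rw [hτ, ins, Perm.decomposeFin.symm_sign, if_neg (Fin.succ_ne_zero p)]
      simp
    have e5 : ∀ y : Fin d → ℤ, (Q ∘ fun k : Fin (d + 1) => fce (Fin.cons 0 y : Fin (d + 1) → ℤ) τ k)
        = mx E P τ y := by
      intro y
      funext k
      have hpos : 1 ≤ (τ.symm 0 : ℕ) := Nat.one_le_iff_ne_zero.2 hτ0'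
      have h5 : (fun i : Fin d => fce (Fin.cons 0 y : Fin (d + 1) → ℤ) τ k i.succ) = hz τ y k := rfl
      simp only [Function.comp_apply, hQ, mx]
      rw [h5, fce, Fin.cons_zero]
      by_cases hk : (τ.symm 0 : ℕ) ≤ k
      · have h6 : ¬ ((0 : ℤ) + (if 1 ≤ (τ.symm 0 : ℕ) ∧ (τ.symm 0 : ℕ) ≤ (k : ℕ) then 1 else 0)
            = 0) := by
          rw [if_pos ⟨hpos, hk⟩]
          norm_num
        rw [if_neg h6, if_pos hk]
      · have h6 : (0 : ℤ) + (if 1 ≤ (τ.symm 0 : ℕ) ∧ (τ.symm 0 : ℕ) ≤ (k : ℕ) then 1 else 0)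
            = 0 := by
          rw [if_neg (fun h => hk h.2)]
          norm_num
        rw [if_pos h6, if_neg hk]
    have e6 : ((Fin.cons 0 x : Fin (d + 1) → ℤ) + Pi.single (τ 0) 1)
        = Fin.cons 0 (x + Pi.single p 1) := by
      funext i
      refine Fin.cases ?_ (fun j => ?_) i
      · rw [Pi.add_apply, hτ0, Pi.single_eq_of_ne (Fin.succ_ne_zero p).symm]
        simp
      · rw [Pi.add_apply, hτ0, Fin.cons_succ, Fin.cons_succ, Pi.add_apply]
        congr 1
        by_cases hj : j = p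
        · subst hj
          simp
        · rw [Pi.single_eq_of_ne hj, Pi.single_eq_of_ne (fun h => hj (Fin.succ_injective _ h))]
    rw [e6, e5, e5, hsgn]
    push_cast
    ring
  rw [e1] at h1
  simp only [e4, sum_neg_distrib] at h1
  linear_combination h1

end Prism

section Total

variable {d : ℕ} {Y : Type*}

/-- invariance of the total Kuhn sum -/
theorem total_eq (c : (Fin (d + 1) → Y) → ℂ) (S : Set Y)
    (hc : ∀ y : Fin (d + 2) → Y, (∀ i, y i ∈ S) → cob c y = 0)
    (E P : (Fin d → ℤ) → Y) (hE : ∀ x, E x ∈ S) (hP : ∀ x, P x ∈ S)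
    (hKE : (Function.support (KS c E)).Finite) (hKP : (Function.support (KS c P)).Finite)
    (hfin : ∀ p σ, (Function.support fun x => c (mx E P (ins p σ) x)).Finite) :
    ∑' x, KS c P x = ∑' x, KS c E x := by
  have s1 : Summable (KS c P) := summable_of_finite_support hKP
  have s2 : Summable (KS c E) := summable_of_finite_support hKE
  have s3 : ∀ p σ, Summable fun x => c (mx E P (ins p σ) x) := fun p σ =>
    summable_of_finite_support (hfin p σ)
  have s4 : ∀ (p : Fin d) (σ : Perm (Fin d)),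
      Summable fun x : Fin d → ℤ => c (mx E P (ins p σ) (x + Pi.single p 1)) := fun p σ => by
    have h5 := (Equiv.addRight (Pi.single (M := fun _ => ℤ) p 1)).summable_iff.2 (s3 p σ)
    exact h5
  have h1 : ∑' x, (KS c P x - KS c E x) = 0 := by
    simp_rw [prism c S hc E P hE hP]
    rw [Summable.tsum_finsetSum (fun p _ => ?_)]
    · refine sum_eq_zero (fun p _ => ?_)
      rw [Summable.tsum_finsetSum (fun σ _ => ((s4 p σ).sub (s3 p σ)).mul_left _)]
      refine sum_eq_zero (fun σ _ => ?_)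
      rw [tsum_mul_left, (s4 p σ).tsum_sub (s3 p σ)]
      have := (Equiv.addRight (Pi.single (M := fun _ => ℤ) p 1)).tsum_eq
        (fun x => c (mx E P (ins p σ) x))
      simp only [coe_addRight] at this
      rw [this, sub_self, mul_zero]
    · exact summable_sum (fun σ _ => ((s4 p σ).sub (s3 p σ)).mul_left _)
  rw [s1.tsum_sub s2] at h1
  linear_combination h1

end Total

end BSD
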